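import Pool.Agent.H730.MB.Main
import Pool.Agent.H730.MB.K5
import Pool.Agent.H730.MB.Prod
import Pool.Agent.H730.MB.Top

/-!
# A finite graph `H` with `m(H) ≥ 5` whose neighbourhood complex is not 2-connected

The graph is `H = R × K₅`, where `R` is the suspension (levels `0, ..., 4`, tips at the levels
`0` and `4`) of the reflexive graph `X` of chains `a0 ⊆ a1 ⊆ a2` of consistent sets of signed
names; `X` is built so that it carries a class with values in `ℤ/2` on its closed walks, which is
trivial on the closed walks of length at most four, and is otherwise universal. The class makes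
`|N(H)|` carry an essential map of the 2-sphere, while locally there is no obstruction to
changing homomorphisms from graphs of maximum degree at most three.
-/

namespace Pool.Agent.Results.MP_7ec8a1_co.MobilityAboveConnectivity

/-- The geometric realisation `|N(H)|` of the neighbourhood complex of the finite graph `H`:
the functions `x : V → ℝ` with nonnegative values of sum 1 whose support is contained in the
neighbourhood of a vertex of `H`, with the subspace topology. -/
def nbhd {V : Type} [Fintype V] (H : SimpleGraph V) : Set (V → ℝ) :=
  {x | (∀ v, 0 ≤ x v) ∧ ∑ v, x v = 1 ∧ ∃ u, ∀ v, x v ≠ 0 → H.Adj u v}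

/-- two maps differ at exactly one vertex -/
def DiffOne {W V : Type} (f g : W → V) : Prop := ∃ w, f w ≠ g w ∧ ∀ x, x ≠ w → f x = g x

/-- the graph `Hom(F,H)` is empty or connected: any two homomorphisms are joined by a finite
sequence of homomorphisms in which consecutive ones differ at exactly one vertex -/
def HomConnected {W V : Type} (F : SimpleGraph W) (H : SimpleGraph V) : Prop :=
  ∀ f g : F →g H, Relation.ReflTransGen (fun a b : F →g H => DiffOne a b) f g

/-- `H` is `d`-mobile (`d ≥ 2`): `Hom(F,H)` is empty or connected for every finite simple graph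
`F` of maximum degree at most `d - 2` -/
def Mobile {V : Type} (H : SimpleGraph V) (d : ℕ) : Prop :=
  ∀ (W : Type) [Finite W] (F : SimpleGraph W),
    (∀ v, (F.neighborSet v).ncard ≤ d - 2) → HomConnected F H

/-- There is a finite simple graph `H` with an edge which is 5-mobile, while some map from the
2-sphere to the neighbourhood complex of `H` is not null-homotopic. -/
theorem result : ∃ (V : Type) (_ : Fintype V) (H : SimpleGraph V), (∃ a b, H.Adj a b) ∧
    Mobile H 5 ∧
    ∃ φ : C(Metric.sphere (0 : EuclideanSpace ℝ (Fin 3)) 1, nbhd H), ¬ φ.Nullhomotopic := by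
  refine ⟨H730.MB.R × Fin 5, inferInstance, H730.MB.H, ⟨((0, H730.MB.x0), 0), ((0, H730.MB.x0), 1),
    ⟨by simp, by simp, Or.inl rfl⟩, by decide⟩, ?_, ?_⟩
  · exact H730.MB.mobile_H (fun V _ F hd f g hf hg => H730.MB.k5 F hd f g hf hg)
      (fun V _ F hd f g hf hg => H730.MB.hom_R hd f g hf hg)
  · exact H730.MB.exists_essential

end Pool.Agent.Results.MP_7ec8a1_co.MobilityAboveConnectivity
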